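import Mathlib

set_option autoImplicit false

namespace Pool.Agent.Helper451.Fan

open TopologicalSpace Filter Topology

abbrev J := unitInterval

lemma dist_cont {α β : Type*} [MetricSpace α] [TopologicalSpace β] {f g : β → NonemptyCompacts α}
   (hf : Continuous f) (hg : Continuous g) : Continuous (fun b => dist (f b) (g b)) := by
  exact hf.dist hg

lemma infDist_cont {α β : Type*} [MetricSpace α] [TopologicalSpace β] {f : β → NonemptyCompacts α}
   (hf : Continuous f) (x : α) : Continuous (fun b => Metric.infDist x (f b : Set α)) := by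
  exact (Metric.lipschitz_infDist_set x).continuous.comp hf

/-- the cone over a set of reals, drawn in the plane with vertex at the origin -/
def Fan (Z : Set ℝ) : Set (ℝ × ℝ) := (fun p : ℝ × ℝ => (p.1, p.1 * p.2)) '' (Set.Icc 0 1 ×ˢ Z)

variable {Z : Set ℝ}

lemma mem_fan {x : ℝ × ℝ} : x ∈ Fan Z ↔ (0 ≤ x.1 ∧ x.1 ≤ 1) ∧ ∃ z ∈ Z, x.2 = x.1 * z := by
  constructor
  · rintro ⟨⟨s, z⟩, ⟨hs, hz⟩, rfl⟩
    exact ⟨hs, z, hz, rfl⟩
  · rintro ⟨hs, z, hz, h⟩
    exact ⟨(x.1, z), ⟨hs, hz⟩, Prod.ext rfl h.symm⟩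

lemma fan_compact (hc : IsCompact Z) : IsCompact (Fan Z) :=
  (isCompact_Icc.prod hc).image (by fun_prop)

noncomputable def c1 (l : ℝ) : ℝ := min 1 (3 * l)
noncomputable def c2 (l : ℝ) : ℝ := max 0 (min 1 (3 * l - 1))
noncomputable def c3 (l : ℝ) : ℝ := min 1 (3 - 3 * l)

lemma c1_cont : Continuous c1 := by unfold c1; fun_prop
lemma c2_cont : Continuous c2 := by unfold c2; fun_prop
lemma c3_cont : Continuous c3 := by unfold c3; fun_prop

lemma c1_le (l : ℝ) : c1 l ≤ 1 := min_le_left _ _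
lemma c1_nonneg (l : J) : 0 ≤ c1 l := le_min zero_le_one (by linarith [l.2.1])
lemma c2_le (l : ℝ) : c2 l ≤ 1 := max_le zero_le_one (min_le_left _ _)
lemma c2_nonneg (l : ℝ) : 0 ≤ c2 l := le_max_left _ _
lemma c3_le (l : ℝ) : c3 l ≤ 1 := min_le_left _ _
lemma c3_nonneg (l : J) : 0 ≤ c3 l := le_min zero_le_one (by linarith [l.2.2])

lemma c12 (l : ℝ) : c2 l = 0 ∨ c1 l = 1 := by
  by_cases h : 3 * l ≤ 1
  · left
    unfold c2
    rw [min_eq_right (by linarith), max_eq_left (by linarith)]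
  · right
    unfold c1
    rw [min_eq_left (by linarith)]

lemma c23 (l : ℝ) : c3 l = 1 ∨ c2 l = 1 := by
  by_cases h : 3 * l ≤ 2
  · left
    unfold c3
    rw [min_eq_left (by linarith)]
  · right
    unfold c2
    rw [min_eq_left (by linarith), max_eq_right zero_le_one]

lemma c1_zero : c1 0 = 0 := by unfold c1; norm_num
lemma c2_zero : c2 0 = 0 := by unfold c2; norm_num
lemma c3_zero : c3 0 = 1 := by unfold c3; norm_num
lemma c1_one : c1 1 = 1 := by unfold c1; norm_num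
lemma c2_one : c2 1 = 1 := by unfold c2; norm_num
lemma c3_one : c3 1 = 0 := by unfold c3; norm_num

/-- the point on the leg `z` at distance `s` -/
def pt (s : ℝ) (z : ℝ) : ℝ × ℝ := (s, s * z)

lemma pt_mem {s : ℝ} (hs0 : 0 ≤ s) (hs1 : s ≤ 1) (z : Z) : pt s z ∈ Fan Z :=
  mem_fan.mpr ⟨⟨hs0, hs1⟩, z, z.2, rfl⟩

/-- first piece -/
noncomputable def s1 (l : ℝ) (a b : Fan Z) (u : J) : ℝ := (1 - u) * ((1 - c1 l) * a.1.1) + u * (c3 l * b.1.1)

lemma s_nonneg (a : Fan Z) : 0 ≤ a.1.1 := (mem_fan.mp a.2).1.1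
lemma s_le (a : Fan Z) : a.1.1 ≤ 1 := (mem_fan.mp a.2).1.2

lemma s1_nonneg (l : J) (a b : Fan Z) (u : J) : 0 ≤ s1 l a b u := by
  unfold s1
  have h1 := s_nonneg a
  have h2 := s_nonneg b
  have h3 := c3_nonneg l
  have h4 := c1_le l
  have h5 := u.2.1
  have h6 := u.2.2
  have : 0 ≤ (1 - (u:ℝ)) * ((1 - c1 l) * a.1.1) := mul_nonneg (by linarith) (mul_nonneg (by linarith) h1)
  have : 0 ≤ (u:ℝ) * (c3 l * b.1.1) := mul_nonneg h5 (mul_nonneg h3 h2)
  linarith

lemma s1_le (l : J) (a b : Fan Z) (u : J) : s1 l a b u ≤ 1 := by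
  unfold s1
  have h1 := s_nonneg a
  have h1' := s_le a
  have h2 := s_nonneg b
  have h2' := s_le b
  have h3 := c3_nonneg l
  have h3' := c3_le l
  have h4 := c1_le l
  have h4' := c1_nonneg l
  have h5 := u.2.1
  have h6 := u.2.2
  have e1 : (1 - c1 l) * a.1.1 ≤ 1 := by nlinarith
  have e2 : c3 l * b.1.1 ≤ 1 := by nlinarith
  have e3 : (1 - (u:ℝ)) * ((1 - c1 l) * a.1.1) ≤ (1 - (u:ℝ)) * 1 := mul_le_mul_of_nonneg_left e1 (by linarith)
  have e4 : (u:ℝ) * (c3 l * b.1.1) ≤ (u:ℝ) * 1 := mul_le_mul_of_nonneg_left e2 h5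
  linarith

noncomputable def f1 (z : Z) (l : J) (a b : Fan Z) (u : J) : Fan Z :=
  ⟨pt (s1 l a b u) z, pt_mem (s1_nonneg l a b u) (s1_le l a b u) z⟩

/-- second piece, as a point of the plane -/
noncomputable def g2 (z : ℝ) (l : ℝ) (a : Fan Z) (u : J) : ℝ × ℝ :=
  ((1 - c1 l) * a.1.1 + u * c2 l * a.1.1, (1 - c1 l) * a.1.1 * z + u * c2 l * a.1.2)

lemma smul_mem (a : Fan Z) {c : ℝ} (h0 : 0 ≤ c) (h1 : c ≤ 1) : (c * a.1.1, c * a.1.2) ∈ Fan Z := by
  obtain ⟨⟨h2, h3⟩, z, hz, hz'⟩ := mem_fan.mp a.2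
  rw [mem_fan]
  refine ⟨⟨mul_nonneg h0 h2, by show c * a.1.1 ≤ 1; nlinarith⟩, z, hz, ?_⟩
  show c * a.1.2 = c * a.1.1 * z
  rw [hz']; ring

lemma g2_mem (z : Z) (l : J) (a : Fan Z) (u : J) : g2 z l a u ∈ Fan Z := by
  unfold g2
  rcases c12 l with h | h
  · rw [h]
    have e1 : (1 - c1 l) * a.1.1 ≤ 1 := by nlinarith [c1_nonneg l, c1_le l, s_nonneg a, s_le a]
    have := pt_mem (Z := Z) (s := (1 - c1 l) * a.1.1) (mul_nonneg (by linarith [c1_le l]) (s_nonneg a)) e1 z
    convert this using 1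
    unfold pt
    simp
  · rw [h]
    have := smul_mem a (c := (u : ℝ) * c2 l) (mul_nonneg u.2.1 (c2_nonneg l)) (by
      have h1 := u.2.1; have h2 := u.2.2; have h3 := c2_nonneg l; have h4 := c2_le l; nlinarith)
    convert this using 1
    simp

noncomputable def f2 (z : Z) (l : J) (a : Fan Z) (u : J) : Fan Z := ⟨g2 z l a u, g2_mem z l a u⟩

noncomputable def R (A : NonemptyCompacts (Fan Z)) (q : Z × J) : NonemptyCompacts (Fan Z) :=
  (A ×ˢ (A ×ˢ (⊤ : NonemptyCompacts J))).map (fun p => f1 q.1 q.2 p.1 p.2.1 p.2.2) (by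
    have := c1_cont
    have := c3_cont
    unfold f1 pt s1
    fun_prop)
  ⊔ (A ×ˢ (⊤ : NonemptyCompacts J)).map (fun p => f2 q.1 q.2 p.1 p.2) (by
    have := c1_cont
    have := c2_cont
    unfold f2 g2
    fun_prop)

lemma R_cont : Continuous (fun p : NonemptyCompacts (Fan Z) × (Z × J) => R p.1 p.2) := by
  have k1 := c1_cont
  have k2 := c2_cont
  have k3 := c3_cont
  have h1 : Continuous (fun p : NonemptyCompacts (Fan Z) × (Z × J) => (p.1 ×ˢ (p.1 ×ˢ (⊤ : NonemptyCompacts J)) : NonemptyCompacts (Fan Z × (Fan Z × J)))) := by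
    fun_prop
  have h2 : Continuous (fun p : NonemptyCompacts (Fan Z) × (Z × J) => (p.1 ×ˢ (⊤ : NonemptyCompacts J) : NonemptyCompacts (Fan Z × J))) := by
    fun_prop
  have g1 : Continuous (Function.uncurry (fun (p : NonemptyCompacts (Fan Z) × (Z × J)) (q : Fan Z × (Fan Z × J)) => f1 p.2.1 p.2.2 q.1 q.2.1 q.2.2)) := by
    unfold f1 pt s1 Function.uncurry
    fun_prop
  have g2 : Continuous (Function.uncurry (fun (p : NonemptyCompacts (Fan Z) × (Z × J)) (q : Fan Z × J) => f2 p.2.1 p.2.2 q.1 q.2)) := by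
    unfold f2 g2 Function.uncurry
    fun_prop
  exact (h1.nonemptyCompacts_map' g1).sup (h2.nonemptyCompacts_map' g2)

lemma mem_R {A : NonemptyCompacts (Fan Z)} {q : Z × J} {x : Fan Z} :
    x ∈ (R A q : Set (Fan Z)) ↔ (∃ a ∈ (A : Set (Fan Z)), ∃ b ∈ (A : Set (Fan Z)), ∃ u : J, f1 q.1 q.2 a b u = x) ∨
      (∃ a ∈ (A : Set (Fan Z)), ∃ u : J, f2 q.1 q.2 a u = x) := by
  unfold R
  rw [NonemptyCompacts.coe_sup, NonemptyCompacts.coe_map, NonemptyCompacts.coe_map, NonemptyCompacts.coe_prod,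
    NonemptyCompacts.coe_prod, NonemptyCompacts.coe_top]
  constructor
  · rintro (⟨⟨a, b, u⟩, ⟨ha, hb, _⟩, h⟩ | ⟨⟨a, u⟩, ⟨ha, _⟩, h⟩)
    · exact Or.inl ⟨a, ha, b, hb, u, h⟩
    · exact Or.inr ⟨a, ha, u, h⟩
  · rintro (⟨a, ha, b, hb, u, h⟩ | ⟨a, ha, u, h⟩)
    · exact Or.inl ⟨(a, b, u), ⟨ha, hb, trivial⟩, h⟩
    · exact Or.inr ⟨(a, u), ⟨ha, trivial⟩, h⟩


attribute [irreducible] R

lemma f12_zero (z : Z) (l : J) (a b : Fan Z) : f1 z l a b 0 = f2 z l a 0 := by
  apply Subtype.ext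
  unfold f1 f2 g2 pt s1
  simp

lemma f1_zero_indep (z : Z) (l : J) (a b b' : Fan Z) : f1 z l a b 0 = f1 z l a b' 0 := by
  rw [f12_zero, f12_zero]

lemma f1_one_indep (z : Z) (l : J) (a a' b : Fan Z) : f1 z l a b 1 = f1 z l a' b 1 := by
  apply Subtype.ext
  unfold f1 pt s1
  simp

lemma R_conn (A : NonemptyCompacts (Fan Z)) (q : Z × J) : IsConnected (R A q : Set (Fan Z)) := by
  have k1 := c1_cont
  have k2 := c2_cont
  have k3 := c3_cont
  refine ⟨(R A q).nonempty, ?_⟩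
  obtain ⟨a0, ha0⟩ := A.nonempty
  have pc1 : ∀ a b : Fan Z, IsPreconnected (Set.range (fun u : J => f1 q.1 q.2 a b u)) := by
    intro a b
    apply isPreconnected_range
    unfold f1 pt s1
    fun_prop
  have pc2 : ∀ a : Fan Z, IsPreconnected (Set.range (fun u : J => f2 q.1 q.2 a u)) := by
    intro a
    apply isPreconnected_range
    unfold f2 g2
    fun_prop
  have sub1 : ∀ a ∈ (A : Set (Fan Z)), ∀ b ∈ (A : Set (Fan Z)), Set.range (fun u : J => f1 q.1 q.2 a b u) ⊆ (R A q : Set (Fan Z)) := by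
    rintro a ha b hb _ ⟨u, rfl⟩
    exact mem_R.mpr (Or.inl ⟨a, ha, b, hb, u, rfl⟩)
  have sub2 : ∀ a ∈ (A : Set (Fan Z)), Set.range (fun u : J => f2 q.1 q.2 a u) ⊆ (R A q : Set (Fan Z)) := by
    rintro a ha _ ⟨u, rfl⟩
    exact mem_R.mpr (Or.inr ⟨a, ha, u, rfl⟩)
  apply isPreconnected_of_forall (f1 q.1 q.2 a0 a0 0)
  intro y hy
  rcases mem_R.mp hy with ⟨a, ha, b, hb, u, rfl⟩ | ⟨a, ha, u, rfl⟩
  · refine ⟨Set.range (fun u : J => f1 q.1 q.2 a0 b u) ∪ Set.range (fun u : J => f1 q.1 q.2 a b u),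
      Set.union_subset (sub1 a0 ha0 b hb) (sub1 a ha b hb), Or.inl ⟨0, f1_zero_indep _ _ _ _ _⟩, Or.inr ⟨u, rfl⟩, ?_⟩
    exact IsPreconnected.union (f1 q.1 q.2 a0 b 1) ⟨1, rfl⟩ ⟨1, f1_one_indep _ _ _ _ _⟩ (pc1 a0 b) (pc1 a b)
  · refine ⟨Set.range (fun u : J => f1 q.1 q.2 a0 a0 u) ∪ (Set.range (fun u : J => f1 q.1 q.2 a a0 u) ∪ Set.range (fun u : J => f2 q.1 q.2 a u)),
      Set.union_subset (sub1 a0 ha0 a0 ha0) (Set.union_subset (sub1 a ha a0 ha0) (sub2 a ha)), Or.inl ⟨0, rfl⟩, Or.inr (Or.inr ⟨u, rfl⟩), ?_⟩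
    refine IsPreconnected.union (f1 q.1 q.2 a0 a0 1) ⟨1, rfl⟩ (Or.inl ⟨1, f1_one_indep _ _ _ _ _⟩) (pc1 a0 a0) ?_
    exact IsPreconnected.union (f1 q.1 q.2 a a0 0) ⟨0, rfl⟩ ⟨0, (f12_zero _ _ _ _).symm⟩ (pc1 a a0) (pc2 a)

/-- the vertex -/
def vtx (hne : Nonempty Z) : Fan Z := ⟨(0, 0), mem_fan.mpr ⟨⟨le_rfl, zero_le_one⟩, hne.some, hne.some.2, by simp⟩⟩

lemma eq_vtx (hne : Nonempty Z) {a : Fan Z} (h : a.1.1 = 0) : a = vtx hne := by
  obtain ⟨_, z, _, hz⟩ := mem_fan.mp a.2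
  apply Subtype.ext
  apply Prod.ext
  · exact h
  · rw [hz, h, zero_mul]; rfl

/-- scaling towards the vertex -/
def scl (u : J) (a : Fan Z) : Fan Z := ⟨(u * a.1.1, u * a.1.2), smul_mem a u.2.1 u.2.2⟩

/-- a connected set containing the vertex is star-shaped -/
lemma star [CompactSpace Z] [TotallyDisconnectedSpace Z] (hne : Nonempty Z) (A : NonemptyCompacts (Fan Z))
    (hA : IsConnected (A : Set (Fan Z))) (hv : vtx hne ∈ A) (a : Fan Z) (ha : a ∈ A) (u : J) : scl u a ∈ A := by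
  by_contra hcon
  have hs : 0 < a.1.1 := by
    apply lt_of_le_of_ne (s_nonneg a)
    intro h
    apply hcon
    have e1 : scl u a = vtx hne := eq_vtx hne (by show (u:ℝ) * a.1.1 = 0; rw [← h, mul_zero])
    rw [e1]; exact hv
  have hu0 : (0:ℝ) < u := by
    apply lt_of_le_of_ne u.2.1
    intro h
    apply hcon
    have e1 : scl u a = vtx hne := eq_vtx hne (by show (u:ℝ) * a.1.1 = 0; rw [← h, zero_mul])
    rw [e1]; exact hv
  have hu1 : (u:ℝ) < 1 := by
    apply lt_of_le_of_ne u.2.2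
    intro h
    apply hcon
    have e1 : scl u a = a := by
      apply Subtype.ext
      show ((u:ℝ) * a.1.1, (u:ℝ) * a.1.2) = a.1
      rw [h, one_mul, one_mul]
    rw [e1]; exact ha
  obtain ⟨_, z, hz, hz'⟩ := mem_fan.mp a.2
  have hus0 : 0 < (u:ℝ) * a.1.1 := mul_pos hu0 hs
  have hus1 : (u:ℝ) * a.1.1 ≤ 1 := by nlinarith [s_le a]
  have hAc : IsClosed (A : Set (Fan Z)) := A.isCompact.isClosed
  let φ : Z → Fan Z := fun z' => ⟨pt ((u:ℝ) * a.1.1) z', pt_mem hus0.le hus1 z'⟩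
  have hφ : Continuous φ := by
    show Continuous (fun z' : Z => (⟨pt ((u:ℝ) * a.1.1) z', pt_mem hus0.le hus1 z'⟩ : Fan Z))
    unfold pt
    fun_prop
  have hopen : IsOpen (φ ⁻¹' (A : Set (Fan Z))ᶜ) := hAc.isOpen_compl.preimage hφ
  have hmem : (⟨z, hz⟩ : Z) ∈ φ ⁻¹' (A : Set (Fan Z))ᶜ := by
    show φ ⟨z, hz⟩ ∉ A
    have : φ ⟨z, hz⟩ = scl u a := by
      apply Subtype.ext
      show pt ((u:ℝ) * a.1.1) z = ((u:ℝ) * a.1.1, (u:ℝ) * a.1.2)
      unfold pt
      rw [hz']
      congr 1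
      ring
    rw [this]
    exact hcon
  obtain ⟨V, hV, hzV, hVsub⟩ := compact_exists_isClopen_in_isOpen hopen hmem
  -- the two compact sets
  let ψ : J × Z → Fan Z := fun p => ⟨pt p.1 p.2, pt_mem p.1.2.1 p.1.2.2 p.2⟩
  have hψ : Continuous ψ := by
    show Continuous (fun p : J × Z => (⟨pt p.1 p.2, pt_mem p.1.2.1 p.1.2.2 p.2⟩ : Fan Z))
    unfold pt
    fun_prop
  have hsx : Continuous (fun x : Fan Z => x.1.1) := by fun_prop
  set T : Set (Fan Z) := (ψ '' (Set.univ ×ˢ V)) ∩ {x | (u:ℝ) * a.1.1 ≤ x.1.1} with hT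
  set T' : Set (Fan Z) := ({x : Fan Z | x.1.1 ≤ (u:ℝ) * a.1.1} ∪ ψ '' (Set.univ ×ˢ Vᶜ))ᶜ with hT'
  have hTc : IsClosed T := (((isClosed_univ.prod hV.isClosed).isCompact.image hψ).isClosed).inter
    (isClosed_le continuous_const hsx)
  have hT'o : IsOpen T' := by
    rw [hT', isOpen_compl_iff]
    exact (isClosed_le hsx continuous_const).union (((isClosed_univ.prod hV.compl.isClosed).isCompact.image hψ).isClosed)
  have hsubT : T' ⊆ T := by
    intro x hx
    rw [hT', Set.mem_compl_iff, Set.mem_union, not_or] at hx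
    obtain ⟨h1, h2⟩ := hx
    have h1' : (u:ℝ) * a.1.1 < x.1.1 := not_le.mp h1
    refine ⟨?_, h1'.le⟩
    obtain ⟨⟨h3, h4⟩, z1, hz1, hz1'⟩ := mem_fan.mp x.2
    by_cases hzV1 : (⟨z1, hz1⟩ : Z) ∈ V
    · refine ⟨(⟨x.1.1, h3, h4⟩, ⟨z1, hz1⟩), ⟨trivial, hzV1⟩, ?_⟩
      apply Subtype.ext
      exact Prod.ext rfl hz1'.symm
    · exfalso
      apply h2
      refine ⟨(⟨x.1.1, h3, h4⟩, ⟨z1, hz1⟩), ⟨trivial, hzV1⟩, ?_⟩
      apply Subtype.ext
      exact Prod.ext rfl hz1'.symm
  have hcover : (A : Set (Fan Z)) ⊆ T' ∪ Tᶜ := by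
    intro x hx
    by_cases hxT : x ∈ T
    · left
      obtain ⟨⟨⟨s', z'⟩, ⟨_, hz'V⟩, hxe⟩, hxs⟩ := hxT
      have hxs1 : (s' : ℝ) = x.1.1 := by rw [← hxe]; rfl
      have hxw : x.1.2 = x.1.1 * z' := by rw [← hxe]; rfl
      have hlt : (u:ℝ) * a.1.1 < x.1.1 := by
        apply lt_of_le_of_ne hxs
        intro he
        have : φ z' ∉ A := hVsub hz'V
        apply this
        have e1 : φ z' = x := by
          apply Subtype.ext
          show pt ((u:ℝ) * a.1.1) z' = x.1
          unfold pt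
          rw [he]
          exact Prod.ext rfl hxw.symm
        rw [e1]; exact hx
      rw [hT', Set.mem_compl_iff, Set.mem_union, not_or]
      refine ⟨not_le.mpr hlt, ?_⟩
      rintro ⟨⟨s2, z2⟩, ⟨_, hz2⟩, hx2⟩
      have hx2s : (s2 : ℝ) = x.1.1 := by rw [← hx2]; rfl
      have hx2w : x.1.2 = x.1.1 * z2 := by rw [← hx2]; rfl
      have hpos : 0 < x.1.1 := hus0.trans hlt
      have : (z' : ℝ) = z2 := by
        have h5 : x.1.1 * (z' : ℝ) = x.1.1 * z2 := by rw [← hxw, ← hx2w]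
        exact mul_left_cancel₀ hpos.ne' h5
      have h6 : z' = z2 := Subtype.ext this
      rw [h6] at hz'V
      exact hz2 hz'V
    · right; exact hxT
  obtain ⟨x, _, hx1, hx2⟩ := hA.isPreconnected T' Tᶜ hT'o hTc.isOpen_compl hcover
    ⟨a, ha, by
      rw [hT', Set.mem_compl_iff, Set.mem_union, not_or]
      have hlt : (u:ℝ) * a.1.1 < a.1.1 := by nlinarith
      refine ⟨fun h => absurd (show a.1.1 ≤ (u:ℝ) * a.1.1 from h) (not_le.mpr hlt), ?_⟩
      rintro ⟨⟨s2, z2⟩, ⟨_, hz2⟩, hx2⟩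
      have hx2s : (s2 : ℝ) = a.1.1 := by rw [← hx2]; rfl
      have hx2w : a.1.2 = a.1.1 * z2 := by rw [← hx2]; rfl
      have : z = z2 := by
        have h5 : a.1.1 * z = a.1.1 * z2 := by rw [← hz', ← hx2w]
        exact mul_left_cancel₀ hs.ne' h5
      have h6 : (⟨z, hz⟩ : Z) = z2 := Subtype.ext this
      rw [h6] at hzV
      exact hz2 hzV⟩
    ⟨vtx hne, hv, by
      rintro ⟨_, h2⟩
      have h3 : (u:ℝ) * a.1.1 ≤ 0 := h2
      linarith⟩
  exact hx2 (hsubT hx1)


/-- `z` dominates every leg met by `A`, with equality somewhere -/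
def W (A : NonemptyCompacts (Fan Z)) (z : Z) : Prop :=
  (∀ a ∈ (A : Set (Fan Z)), a.1.2 - z * a.1.1 ≤ 0) ∧ (∃ a ∈ (A : Set (Fan Z)), a.1.2 - z * a.1.1 = 0)

lemma W_closed : IsClosed {p : NonemptyCompacts (Fan Z) × Z | W p.1 p.2} := by
  have hG : Continuous (fun p : NonemptyCompacts (Fan Z) × Z => p.1.map (fun a => a.1.2 - (p.2 : ℝ) * a.1.1) (by fun_prop)) := by
    have h1 : Continuous (fun p : NonemptyCompacts (Fan Z) × Z => p.1) := continuous_fst
    have g1 : Continuous (Function.uncurry (fun (p : NonemptyCompacts (Fan Z) × Z) (a : Fan Z) => a.1.2 - (p.2 : ℝ) * a.1.1)) := by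
      unfold Function.uncurry
      fun_prop
    exact h1.nonemptyCompacts_map' g1
  have e1 := (NonemptyCompacts.isClosed_subsets_of_isClosed (isClosed_Iic (a := (0:ℝ)))).preimage hG
  have e2 := (NonemptyCompacts.isClosed_inter_nonempty_of_isClosed (isClosed_singleton (x := (0:ℝ)))).preimage hG
  convert e1.inter e2 using 1
  ext ⟨A, z⟩
  simp only [W, Set.mem_ofPred_eq, Set.mem_inter_iff, Set.mem_preimage, NonemptyCompacts.coe_map]
  constructor
  · rintro ⟨h1, a, ha, h2⟩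
    refine ⟨?_, ⟨0, ⟨a, ha, h2⟩, rfl⟩⟩
    rintro _ ⟨b, hb, rfl⟩
    exact h1 b hb
  · rintro ⟨h1, ⟨y, ⟨a, ha, h2⟩, h3⟩⟩
    refine ⟨fun b hb => h1 ⟨b, hb, rfl⟩, a, ha, ?_⟩
    rw [Set.mem_singleton_iff] at h3
    rw [← h3]; exact h2

lemma exists_W [CompactSpace Z] (A : NonemptyCompacts (Fan Z)) : ∃ z : Z, W A z := by
  have hc : IsCompact {p : Fan Z × Z | p.1 ∈ (A : Set (Fan Z)) ∧ p.1.1.2 = p.1.1.1 * p.2} := by
    have h1 : IsCompact ((A : Set (Fan Z)) ×ˢ (Set.univ : Set Z)) := A.isCompact.prod isCompact_univ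
    apply h1.of_isClosed_subset
    · apply (A.isCompact.isClosed.preimage continuous_fst).inter
      apply isClosed_eq <;> fun_prop
    · rintro ⟨a, z⟩ ⟨ha, _⟩
      exact ⟨ha, trivial⟩
  obtain ⟨a0, ha0⟩ := A.nonempty
  obtain ⟨_, z0, hz0, hz0'⟩ := mem_fan.mp a0.2
  have hne : ({p : Fan Z × Z | p.1 ∈ (A : Set (Fan Z)) ∧ p.1.1.2 = p.1.1.1 * p.2}).Nonempty :=
    ⟨(a0, ⟨z0, hz0⟩), ha0, hz0'⟩
  obtain ⟨⟨a, z⟩, ⟨h1, h2⟩, h3⟩ := hc.exists_isMaxOn hne (f := fun p => ((p.2 : Z) : ℝ)) (by fun_prop)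
  refine ⟨z, ?_, a, h1, ?_⟩
  · intro b hb
    obtain ⟨_, z1, hz1, hz1'⟩ := mem_fan.mp b.2
    have h4 : (z1 : ℝ) ≤ z := h3 (a := (b, ⟨z1, hz1⟩)) ⟨hb, hz1'⟩
    have h5 := s_nonneg b
    rw [hz1']
    nlinarith
  · simp only at h2
    rw [h2]; ring

section core

variable [CompactSpace Z] [TotallyDisconnectedSpace Z] (hne : Nonempty Z)

lemma R_zero_leg {A : NonemptyCompacts (Fan Z)} {z : Z} (hD : A = R A (z, 0)) {x : Fan Z} (hx : x ∈ (A : Set (Fan Z))) :
    x.1.2 = x.1.1 * z := by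
  rw [hD] at hx
  rcases mem_R.mp hx with ⟨a, ha, b, hb, u, rfl⟩ | ⟨a, ha, u, rfl⟩
  · rfl
  · show (1 - c1 (0 : J)) * a.1.1 * z + u * c2 (0 : J) * a.1.2 = ((1 - c1 (0:J)) * a.1.1 + u * c2 (0:J) * a.1.1) * z
    have : ((0 : J) : ℝ) = 0 := rfl
    rw [this, c1_zero, c2_zero]; ring

lemma R_vtx {A : NonemptyCompacts (Fan Z)} (hv : vtx hne ∈ (A : Set (Fan Z))) {z : Z} {l : J}
    (h : (l : ℝ) * (dist A (R A (z, 0)) + Metric.infDist (vtx hne) (A : Set (Fan Z))) = dist A (R A (z, 0))) :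
    (R A (z, l) : Set (Fan Z)) = {x | ∃ a ∈ (A : Set (Fan Z)), ∃ u : J, scl u a = x} := by
  rw [Metric.infDist_zero_of_mem hv, add_zero] at h
  have hcase : dist A (R A (z, 0)) = 0 ∨ (l : ℝ) = 1 := by
    by_cases h0 : dist A (R A (z, 0)) = 0
    · left; exact h0
    · right
      exact (mul_eq_right₀ h0).mp h
  rcases hcase with h0 | h1
  · have hD : A = R A (z, 0) := dist_eq_zero.mp h0
    have hleg := fun {x : Fan Z} (hx : x ∈ (A : Set (Fan Z))) => R_zero_leg hD hx
    have hstar : ∀ a ∈ (A : Set (Fan Z)), ∀ u : J, scl u a ∈ (A : Set (Fan Z)) := by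
      intro a ha u
      rw [hD]
      refine mem_R.mpr (Or.inl ⟨vtx hne, hv, a, ha, u, ?_⟩)
      apply Subtype.ext
      show pt (s1 (0:J) (vtx hne) a u) z = ((u:ℝ) * a.1.1, (u:ℝ) * a.1.2)
      have h00 : ((0 : J) : ℝ) = 0 := rfl
      have hv1 : (vtx hne : Fan Z).1.1 = 0 := rfl
      unfold pt s1
      rw [h00, c1_zero, c3_zero, hv1, hleg ha]
      apply Prod.ext
      · show _ = _; ring
      · show _ = _; ring
    have hdown : ∀ a ∈ (A : Set (Fan Z)), ∀ s : ℝ, ∀ hs0 : 0 ≤ s, ∀ hs1 : s ≤ a.1.1, ∀ x : Fan Z, x.1 = pt s z → x ∈ (A : Set (Fan Z)) := by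
      intro a ha s hs0 hs1 x hx
      rcases (s_nonneg a).eq_or_lt with h | h
      · have : s = 0 := by linarith
        have e : x = vtx hne := eq_vtx hne (by rw [hx]; exact this)
        rw [e]; exact hv
      · have e : x = scl ⟨s / a.1.1, div_nonneg hs0 h.le, (div_le_one h).mpr hs1⟩ a := by
          apply Subtype.ext
          rw [hx]
          show pt s z = (s / a.1.1 * a.1.1, s / a.1.1 * a.1.2)
          rw [hleg ha]
          unfold pt
          apply Prod.ext
          · show s = _; field_simp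
          · show s * z = _; field_simp
        rw [e]
        exact hstar a ha _
    have hAeq : {x | ∃ a ∈ (A : Set (Fan Z)), ∃ u : J, scl u a = x} = (A : Set (Fan Z)) := by
      ext x
      constructor
      · rintro ⟨a, ha, u, rfl⟩; exact hstar a ha u
      · intro hx
        refine ⟨x, hx, 1, ?_⟩
        apply Subtype.ext
        show ((1:ℝ) * x.1.1, (1:ℝ) * x.1.2) = x.1
        rw [one_mul, one_mul]
    rw [hAeq]
    ext x
    constructor
    · intro hx
      rcases mem_R.mp hx with ⟨a, ha, b, hb, u, rfl⟩ | ⟨a, ha, u, rfl⟩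
      · have hu0 := u.2.1
        have hu1 := u.2.2
        have e1 : (1 - c1 l) * a.1.1 ≤ a.1.1 := by nlinarith [c1_nonneg l, s_nonneg a]
        have e2 : c3 l * b.1.1 ≤ b.1.1 := by nlinarith [c3_le l, s_nonneg b]
        have e3 : (1 - (u:ℝ)) * ((1 - c1 l) * a.1.1) ≤ (1 - (u:ℝ)) * a.1.1 := mul_le_mul_of_nonneg_left e1 (by linarith)
        have e4 : (u:ℝ) * (c3 l * b.1.1) ≤ (u:ℝ) * b.1.1 := mul_le_mul_of_nonneg_left e2 hu0
        rcases le_total a.1.1 b.1.1 with hab | hab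
        · apply hdown b hb (s1 l a b u) (s1_nonneg l a b u) _ _ rfl
          unfold s1
          have e5 : (1 - (u:ℝ)) * a.1.1 ≤ (1 - (u:ℝ)) * b.1.1 := mul_le_mul_of_nonneg_left hab (by linarith)
          linarith
        · apply hdown a ha (s1 l a b u) (s1_nonneg l a b u) _ _ rfl
          unfold s1
          have e5 : (u:ℝ) * b.1.1 ≤ (u:ℝ) * a.1.1 := mul_le_mul_of_nonneg_left hab hu0
          linarith
      · rcases c12 l with hc | hc
        · apply hdown a ha ((1 - c1 l) * a.1.1) (mul_nonneg (by linarith [c1_le l]) (s_nonneg a))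
            (by nlinarith [c1_nonneg l, s_nonneg a])
          show g2 z l a u = pt ((1 - c1 l) * a.1.1) z
          unfold g2 pt
          rw [hc]
          apply Prod.ext
          · show _ = _; ring
          · show _ = _; ring
        · have e : f2 z l a u = scl ⟨u * c2 l, mul_nonneg u.2.1 (c2_nonneg l), by
              have h1 := u.2.1; have h2 := u.2.2; have h3 := c2_nonneg l; have h4 := c2_le l; nlinarith⟩ a := by
            apply Subtype.ext
            show g2 z l a u = ((u * c2 l) * a.1.1, (u * c2 l) * a.1.2)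
            unfold g2
            rw [hc]
            apply Prod.ext
            · show _ = _; ring
            · show _ = _; ring
          show f2 z l a u ∈ (A : Set (Fan Z))
          rw [e]
          exact hstar a ha _
    · intro hx
      rcases c23 l with hc | hc
      · refine mem_R.mpr (Or.inl ⟨vtx hne, hv, x, hx, 1, ?_⟩)
        apply Subtype.ext
        show pt (s1 l (vtx hne) x 1) z = x.1
        have h00 : ((1 : J) : ℝ) = 1 := rfl
        unfold pt s1
        rw [h00, hc]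
        apply Prod.ext
        · show _ = _; ring
        · show _ = x.1.2
          rw [hleg hx]; ring
      · have hc1 : c1 l = 1 := by
          rcases c12 l with h | h
          · rw [h] at hc; exact absurd hc zero_ne_one
          · exact h
        refine mem_R.mpr (Or.inr ⟨x, hx, 1, ?_⟩)
        apply Subtype.ext
        show g2 z l x 1 = x.1
        have h00 : ((1 : J) : ℝ) = 1 := rfl
        unfold g2
        rw [h00, hc, hc1]
        apply Prod.ext
        · show _ = _; ring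
        · show _ = x.1.2; ring
  · ext x
    constructor
    · intro hx
      rcases mem_R.mp hx with ⟨a, ha, b, hb, u, rfl⟩ | ⟨a, ha, u, rfl⟩
      · refine ⟨a, ha, 0, ?_⟩
        apply Subtype.ext
        show ((0:ℝ) * a.1.1, (0:ℝ) * a.1.2) = pt (s1 l a b u) z
        unfold pt s1
        rw [h1, c1_one, c3_one]
        apply Prod.ext
        · show _ = _; ring
        · show _ = _; ring
      · refine ⟨a, ha, u, ?_⟩
        apply Subtype.ext
        show ((u:ℝ) * a.1.1, (u:ℝ) * a.1.2) = g2 z l a u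
        unfold g2
        rw [h1, c1_one, c2_one]
        apply Prod.ext
        · show _ = _; ring
        · show _ = _; ring
    · rintro ⟨a, ha, u, rfl⟩
      refine mem_R.mpr (Or.inr ⟨a, ha, u, ?_⟩)
      apply Subtype.ext
      show g2 z l a u = ((u:ℝ) * a.1.1, (u:ℝ) * a.1.2)
      unfold g2
      rw [h1, c1_one, c2_one]
      apply Prod.ext
      · show _ = _; ring
      · show _ = _; ring

lemma infDist_pos {A : NonemptyCompacts (Fan Z)} (hv : vtx hne ∉ (A : Set (Fan Z))) :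
    0 < Metric.infDist (vtx hne) (A : Set (Fan Z)) :=
  (A.isCompact.isClosed.notMem_iff_infDist_pos A.nonempty).mp hv

lemma s_pos {A : NonemptyCompacts (Fan Z)} (hv : vtx hne ∉ (A : Set (Fan Z))) {a : Fan Z} (ha : a ∈ (A : Set (Fan Z))) :
    0 < a.1.1 := by
  apply lt_of_le_of_ne (s_nonneg a)
  intro h
  apply hv
  rw [← eq_vtx hne h.symm]
  exact ha

lemma uniq {A : NonemptyCompacts (Fan Z)} {z z' : Z} {l l' : J} (hW : W A z) (hW' : W A z')
    (h : (l : ℝ) * (dist A (R A (z, 0)) + Metric.infDist (vtx hne) (A : Set (Fan Z))) = dist A (R A (z, 0)))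
    (h' : (l' : ℝ) * (dist A (R A (z', 0)) + Metric.infDist (vtx hne) (A : Set (Fan Z))) = dist A (R A (z', 0))) :
    R A (z, l) = R A (z', l') := by
  by_cases hv : vtx hne ∈ (A : Set (Fan Z))
  · apply SetLike.coe_injective
    rw [R_vtx hne hv h, R_vtx hne hv h']
  · have key : ∀ {z z' : Z}, W A z → W A z' → (z : ℝ) ≤ z' := by
      intro z z' h1 h2
      obtain ⟨_, a, ha, ha'⟩ := h1
      have h3 := h2.1 a ha
      have h4 := s_pos hne hv ha
      by_contra hlt
      rw [not_le] at hlt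
      nlinarith
    have hz : z = z' := Subtype.ext (le_antisymm (key hW hW') (key hW' hW))
    subst hz
    have hm := infDist_pos hne hv
    have hd : 0 ≤ dist A (R A (z, 0)) := dist_nonneg
    have hl : (l : ℝ) = l' := by
      have h5 : (l : ℝ) * (dist A (R A (z, 0)) + Metric.infDist (vtx hne) (A : Set (Fan Z))) =
        (l' : ℝ) * (dist A (R A (z, 0)) + Metric.infDist (vtx hne) (A : Set (Fan Z))) := by rw [h, h']
      exact mul_right_cancel₀ (by linarith) h5
    have hl' : l = l' := Subtype.ext hl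
    rw [hl']

lemma fix_of_connected {A : NonemptyCompacts (Fan Z)} (hA : IsConnected (A : Set (Fan Z))) {z : Z} {l : J} (hW : W A z)
    (h : (l : ℝ) * (dist A (R A (z, 0)) + Metric.infDist (vtx hne) (A : Set (Fan Z))) = dist A (R A (z, 0))) :
    R A (z, l) = A := by
  by_cases hv : vtx hne ∈ (A : Set (Fan Z))
  · apply SetLike.coe_injective
    rw [R_vtx hne hv h]
    ext x
    constructor
    · rintro ⟨a, ha, u, rfl⟩
      exact star hne A hA hv a ha u
    · intro hx
      refine ⟨x, hx, 1, ?_⟩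
      apply Subtype.ext
      show ((1:ℝ) * x.1.1, (1:ℝ) * x.1.2) = x.1
      rw [one_mul, one_mul]
  · -- the set lies on one leg
    have hleg : ∀ b ∈ (A : Set (Fan Z)), b.1.2 = b.1.1 * z := by
      have hpre : IsPreconnected ((fun a : Fan Z => a.1.2 / a.1.1) '' (A : Set (Fan Z))) := by
        apply hA.isPreconnected.image
        apply ContinuousOn.div
        · fun_prop
        · fun_prop
        · intro a ha
          exact (s_pos hne hv ha).ne'
      have hsub : ((fun a : Fan Z => a.1.2 / a.1.1) '' (A : Set (Fan Z))) ⊆ Z := by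
        rintro _ ⟨a, ha, rfl⟩
        obtain ⟨_, z1, hz1, hz1'⟩ := mem_fan.mp a.2
        have := s_pos hne hv ha
        show a.1.2 / a.1.1 ∈ Z
        rw [hz1', mul_div_cancel_left₀ _ this.ne']
        exact hz1
      have hdZ : IsTotallyDisconnected Z := totallyDisconnectedSpace_subtype_iff.mp inferInstance
      have hss := hdZ _ hsub hpre
      obtain ⟨_, a, ha, ha'⟩ := hW
      intro b hb
      have h1 := hss ⟨a, ha, rfl⟩ ⟨b, hb, rfl⟩
      simp only at h1
      have h2 := s_pos hne hv ha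
      have h3 := s_pos hne hv hb
      have h4 : a.1.2 / a.1.1 = z := by
        have : a.1.2 = z * a.1.1 := by linarith
        rw [this, mul_div_cancel_right₀ _ h2.ne']
      rw [h4] at h1
      rw [h1, mul_div_cancel₀ _ h3.ne']
    have hAR : R A (z, 0) = A := by
      have h00 : ((0 : J) : ℝ) = 0 := rfl
      apply SetLike.coe_injective
      ext x
      constructor
      · intro hx
        rcases mem_R.mp hx with ⟨a, ha, b, hb, u, rfl⟩ | ⟨a, ha, u, rfl⟩
        · have hpre : IsPreconnected ((fun a : Fan Z => a.1.1) '' (A : Set (Fan Z))) := by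
            apply hA.isPreconnected.image
            fun_prop
          have hoc := hpre.ordConnected
          have hmem : (1 - (u:ℝ)) * a.1.1 + u * b.1.1 ∈ ((fun a : Fan Z => a.1.1) '' (A : Set (Fan Z))) := by
            have hconv : Convex ℝ ((fun a : Fan Z => a.1.1) '' (A : Set (Fan Z))) := hoc.convex
            exact hconv ⟨a, ha, rfl⟩ ⟨b, hb, rfl⟩ (by linarith [u.2.2]) u.2.1 (by ring)
          obtain ⟨c, hc, hc'⟩ := hmem
          have e : f1 z 0 a b u = c := by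
            apply Subtype.ext
            show pt (s1 (0:J) a b u) z = c.1
            unfold pt s1
            rw [h00, c1_zero, c3_zero]
            simp only at hc'
            have e1 : (1 - (u:ℝ)) * ((1 - 0) * a.1.1) + u * (1 * b.1.1) = c.1.1 := by rw [hc']; ring
            rw [e1]
            exact Prod.ext rfl (hleg c hc).symm
          show f1 z 0 a b u ∈ (A : Set (Fan Z))
          rw [e]; exact hc
        · have e : f2 z 0 a u = a := by
            apply Subtype.ext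
            show g2 z (0:J) a u = a.1
            unfold g2
            rw [h00, c1_zero, c2_zero]
            apply Prod.ext
            · show _ = a.1.1; ring
            · show _ = a.1.2
              rw [hleg a ha]; ring
          show f2 z 0 a u ∈ (A : Set (Fan Z))
          rw [e]; exact ha
      · intro hx
        refine mem_R.mpr (Or.inr ⟨x, hx, 0, ?_⟩)
        apply Subtype.ext
        show g2 z (0:J) x 0 = x.1
        unfold g2
        rw [h00, c1_zero, c2_zero]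
        apply Prod.ext
        · show _ = x.1.1; ring
        · show _ = x.1.2
          rw [hleg x hx]; ring
    rw [hAR, dist_self, zero_add] at h
    have hm := infDist_pos hne hv
    have hl : (l : ℝ) = 0 := by
      rcases mul_eq_zero.mp h with h1 | h1
      · exact h1
      · exact absurd h1 hm.ne'
    have hl' : l = 0 := Subtype.ext hl
    rw [hl', hAR]

lemma exists_l (A : NonemptyCompacts (Fan Z)) (z : Z) : ∃ l : J,
    (l : ℝ) * (dist A (R A (z, 0)) + Metric.infDist (vtx hne) (A : Set (Fan Z))) = dist A (R A (z, 0)) := by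
  have hd : 0 ≤ dist A (R A (z, 0)) := dist_nonneg
  have hm : 0 ≤ Metric.infDist (vtx hne) (A : Set (Fan Z)) := Metric.infDist_nonneg
  rcases (add_nonneg hd hm).eq_or_lt with h | h
  · refine ⟨0, ?_⟩
    have : dist A (R A (z, 0)) = 0 := by linarith
    rw [← h, this]; simp
  · refine ⟨⟨dist A (R A (z, 0)) / (dist A (R A (z, 0)) + Metric.infDist (vtx hne) (A : Set (Fan Z))),
      div_nonneg hd h.le, (div_le_one h).mpr (by linarith)⟩, ?_⟩
    show dist A (R A (z, 0)) / (dist A (R A (z, 0)) + Metric.infDist (vtx hne) (A : Set (Fan Z))) * _ = _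
    rw [div_mul_cancel₀ _ h.ne']

theorem fan_retract [Nonempty Z] : ∃ r : NonemptyCompacts (Fan Z) → NonemptyCompacts (Fan Z), Continuous r ∧
    (∀ A, IsConnected (r A : Set (Fan Z))) ∧ ∀ A : NonemptyCompacts (Fan Z), IsConnected (A : Set (Fan Z)) → r A = A := by
  have hne : Nonempty Z := inferInstance
  have : CompactSpace (Fan Z) := isCompact_iff_compactSpace.mp (fan_compact (isCompact_iff_compactSpace.mpr inferInstance))
  set C : Set (NonemptyCompacts (Fan Z) × (Z × J)) := {p | W p.1 p.2.1 ∧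
    (p.2.2 : ℝ) * (dist p.1 (R p.1 (p.2.1, 0)) + Metric.infDist (vtx hne) (p.1 : Set (Fan Z))) = dist p.1 (R p.1 (p.2.1, 0))} with hC
  have hR0 : Continuous (fun p : NonemptyCompacts (Fan Z) × (Z × J) => R p.1 (p.2.1, 0)) := by
    have h1 : Continuous (fun p : NonemptyCompacts (Fan Z) × (Z × J) => (p.1, (p.2.1, (0 : J)))) := by fun_prop
    exact Continuous.comp (g := fun p : NonemptyCompacts (Fan Z) × (Z × J) => R p.1 p.2) R_cont h1
  have hD : Continuous (fun p : NonemptyCompacts (Fan Z) × (Z × J) => dist p.1 (R p.1 (p.2.1, 0))) :=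
    dist_cont continuous_fst hR0
  have hm : Continuous (fun p : NonemptyCompacts (Fan Z) × (Z × J) => Metric.infDist (vtx hne) (p.1 : Set (Fan Z))) :=
    infDist_cont continuous_fst (vtx hne)
  have hCc : IsClosed C := by
    apply IsClosed.inter
    · have : Continuous (fun p : NonemptyCompacts (Fan Z) × (Z × J) => (p.1, p.2.1)) := by fun_prop
      exact W_closed.preimage this
    · apply isClosed_eq _ hD
      have : Continuous (fun p : NonemptyCompacts (Fan Z) × (Z × J) => (p.2.2 : ℝ)) := by fun_prop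
      exact this.mul (hD.add hm)
  have hex : ∀ A : NonemptyCompacts (Fan Z), ∃ q : Z × J, (A, q) ∈ C := by
    intro A
    obtain ⟨z, hz⟩ := exists_W A
    obtain ⟨l, hl⟩ := exists_l hne A z
    exact ⟨(z, l), hz, hl⟩
  choose q hq using hex
  refine ⟨fun A => R A (q A), ?_, fun A => R_conn A _, ?_⟩
  · rw [continuous_iff_isClosed]
    intro F hF
    have e : (fun A => R A (q A)) ⁻¹' F = Prod.fst '' (C ∩ (fun p : NonemptyCompacts (Fan Z) × (Z × J) => R p.1 p.2) ⁻¹' F) := by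
      ext A
      constructor
      · intro hA
        exact ⟨(A, q A), ⟨hq A, hA⟩, rfl⟩
      · rintro ⟨⟨A', z, l⟩, ⟨⟨h1, h2⟩, h3⟩, rfl⟩
        show R A' (q A') ∈ F
        rw [uniq hne (hq A').1 h1 (hq A').2 h2]
        exact h3
    rw [e]
    exact ((hCc.inter (hF.preimage R_cont)).isCompact.image continuous_fst).isClosed
  · intro A hA
    exact fix_of_connected hne hA (hq A).1 (hq A).2

end core

end Pool.Agent.Helper451.Fan
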