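import Mathlib

set_option autoImplicit false

namespace Pool.Agent.Helper451.HyperDefs

open TopologicalSpace

/-- `C(M)` is a retract of `2^M`: there is a continuous map from the hyperspace of nonempty compact
subsets of `M` to its subspace of connected ones which fixes every nonempty connected compact subset. -/
def SubcontinuaRetract (M : Type*) [TopologicalSpace M] : Prop :=
  ∃ r : NonemptyCompacts M → {A : NonemptyCompacts M // IsConnected (A : Set M)},
    Continuous r ∧ ∀ A : {A : NonemptyCompacts M // IsConnected (A : Set M)}, r A.1 = A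

lemma subcontinuaRetract_of {M : Type*} [TopologicalSpace M] (r : NonemptyCompacts M → NonemptyCompacts M)
    (hr : Continuous r) (hc : ∀ A, IsConnected (r A : Set M))
    (hf : ∀ A : NonemptyCompacts M, IsConnected (A : Set M) → r A = A) : SubcontinuaRetract M :=
  ⟨fun A => ⟨r A, hc A⟩, hr.subtype_mk hc, fun A => Subtype.ext (hf A.1 A.2)⟩

lemma subcontinuaRetract_homeo {M N : Type*} [TopologicalSpace M] [TopologicalSpace N] (e : M ≃ₜ N)
    (h : SubcontinuaRetract N) : SubcontinuaRetract M := by
  obtain ⟨r, hr, hf⟩ := h
  have key : ∀ A : NonemptyCompacts M, (A.map e e.continuous).map e.symm e.symm.continuous = A := by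
    intro A
    apply SetLike.coe_injective
    rw [NonemptyCompacts.coe_map, NonemptyCompacts.coe_map, ← Set.image_comp]
    simp
  apply subcontinuaRetract_of (fun A => ((r (A.map e e.continuous)).1).map e.symm e.symm.continuous)
  · have h1 := e.continuous.nonemptyCompacts_map
    have h2 := e.symm.continuous.nonemptyCompacts_map
    exact h2.comp (continuous_subtype_val.comp (hr.comp h1))
  · intro A
    rw [NonemptyCompacts.coe_map]
    exact (r (A.map e e.continuous)).2.image _ e.symm.continuous.continuousOn
  · intro A hA
    have h3 : IsConnected ((A.map e e.continuous : NonemptyCompacts N) : Set N) := by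
      rw [NonemptyCompacts.coe_map]
      exact hA.image _ e.continuous.continuousOn
    have h4 := hf ⟨A.map e e.continuous, h3⟩
    simp only at h4
    rw [h4]
    exact key A

/-- the equivalence relation on `Z × [0,1]` whose only nontrivial class is `Z × {1}` -/
def coneSetoid (Z : Type*) : Setoid (Z × unitInterval) where
  r p q := p = q ∨ (p.2 = 1 ∧ q.2 = 1)
  iseqv := by
    refine ⟨fun p => Or.inl rfl, ?_, ?_⟩
    · rintro p q (h | ⟨h1, h2⟩)
      · exact Or.inl h.symm
      · exact Or.inr ⟨h2, h1⟩
    · rintro p q s (h | ⟨h1, h2⟩) (h' | ⟨h3, h4⟩)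
      · exact Or.inl (h.trans h')
      · exact Or.inr ⟨h ▸ h3, h4⟩
      · exact Or.inr ⟨h1, h' ▸ h2⟩
      · exact Or.inr ⟨h1, h4⟩

/-- The cone over `Z`: the quotient space of `Z × [0,1]` obtained by shrinking `Z × {1}` to a point. -/
abbrev Cone (Z : Type*) := Quotient (coneSetoid Z)

end Pool.Agent.Helper451.HyperDefs
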